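import Pool.Agent.MP_d5eec5_gt.H77.GBasic

/-! Row DEL: delete a full turn at a monogon of the run. -/

set_option autoImplicit false

namespace Pool.Agent.MP_d5eec5_gt.H77

open Pool.Agent.MP_d5eec5_gt.H48 Finset

theorem del_sum (f : ℕ → ℕ) (k n : ℕ) : ∑ t ∈ range (k + n + 3), f t =
    ∑ t ∈ (range (k + n + 1)).erase k, f (if t < k then t else t + 2) +
      f k + f (k + 1) + f (k + 2) := by
  induction n with
  | zero =>
    have e : (range (k + 0 + 1)).erase k = range k := by
      ext t; simp only [mem_erase, mem_range]; omega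
    rw [e, show k + 0 + 3 = k + 1 + 1 + 1 by omega, sum_range_succ, sum_range_succ, sum_range_succ]
    congr 3
    exact sum_congr rfl fun t ht => by rw [if_pos (mem_range.1 ht)]
  | succ n ih =>
    have e : (range (k + (n + 1) + 1)).erase k = insert (k + n + 1) ((range (k + n + 1)).erase k) := by
      ext t; simp only [mem_erase, mem_range, mem_insert]; omega
    rw [e, sum_insert (by simp), show k + (n + 1) + 3 = k + n + 3 + 1 by omega, sum_range_succ, ih,
      if_neg (by omega), show k + n + 1 + 2 = k + n + 3 by omega]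
    omega

theorem del_chain {w : Wd} (hc : w.IsChain (· ≠ ·)) {t : ℕ} (ht : t + 1 < w.length) :
    w[t]? ≠ w[t + 1]? := by
  rw [List.getElem?_eq_getElem ht, List.getElem?_eq_getElem (show t < w.length by omega)]
  intro e
  exact List.isChain_iff_getElem.1 hc t ht (Option.some.inj e)

theorem del_cases {w : Wd} {t : ℕ} (ht : t < w.length) (h : w[t]? ≠ some 1) :
    w[t]? = some 0 ∨ w[t]? = some 2 := by
  rw [List.getElem?_eq_getElem ht] at h ⊢
  generalize w[t] = x at h ⊢
  revert x
  decide

theorem del_alt {w : Wd} (hc : w.IsChain (· ≠ ·)) {t : ℕ} (ht : t + 2 < w.length)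
    (h0 : w[t]? ≠ some 1) (h1 : w[t + 1]? ≠ some 1) (h2 : w[t + 2]? ≠ some 1) :
    w[t]? = w[t + 2]? := by
  have a := del_chain hc (t := t) (by omega)
  have b := del_chain hc (t := t + 1) (by omega)
  rcases del_cases (by omega) h0 with e0 | e0 <;> rcases del_cases (by omega) h1 with e1 | e1 <;>
    rcases del_cases ht h2 with e2 | e2 <;> simp_all

theorem del_length {w : Wd} {j : ℕ} (h : j + 3 ≤ w.length) :
    (del 1 j w).length + 2 = w.length := by
  simp only [del, List.length_append, List.length_take, List.length_drop]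
  omega

theorem del_get {w : Wd} {j : ℕ} (h : j + 3 ≤ w.length) (t : ℕ) :
    (del 1 j w)[t]? = if t ≤ j then w[t]? else w[t + 2]? := by
  have hl : (w.take (j + 1)).length = j + 1 := by rw [List.length_take]; omega
  unfold del
  split_ifs with ht
  · rw [List.getElem?_append_left (by omega), List.getElem?_take_of_lt (by omega)]
  · rw [List.getElem?_append_right (by omega), hl, List.getElem?_drop]
    congr 1
    omega

section run

variable {τ η : Fin 3} {w : Wd} {p : ℕ → ℚ} {j : ℕ}

/-- position of a point of a run -/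
theorem del_pos (hF : Fit τ η w p) {t : ℕ} (h : InRun w j (t + 1)) :
    (w[t]? = some 0 ∧ 0 < p (t + 1) ∧ p (t + 1) < 1) ∨
      (w[t]? = some 2 ∧ 2 < p (t + 1) ∧ p (t + 1) < 3) := by
  have h1 := h.le
  have h2 := h.1
  rcases del_cases (t := t) (by omega) (h.ne_one (by omega) (by omega)) with e | e
  · have := hF.mem t 0 e
    left
    refine ⟨e, ?_, ?_⟩
    · simpa using this.1
    · simpa using this.2
  · have := hF.mem t 2 e
    right
    refine ⟨e, ?_, ?_⟩
    · simpa using this.1
    · have h3 := this.2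
      norm_num at h3
      exact h3

theorem del_one (hF : Fit τ η w p) {t : ℕ} (h : w[t]? = some 1) :
    1 ≤ p (t + 1) ∧ p (t + 1) ≤ 2 := by
  have := hF.mem t 1 h
  norm_num at this
  exact ⟨this.1.le, this.2.le⟩

theorem del_vertex {τ : Fin 3} (h : some (τ + 1) ≠ some 1) :
    (1 : ℚ) ≤ (τ.val : ℚ) ∧ (τ.val : ℚ) ≤ 2 := by
  fin_cases τ
  · exact absurd rfl h
  · norm_num
  · norm_num

/-- the point before a run -/
theorem del_start (hV : VG τ η w) (hF : Fit τ η w p) (h : InRun w j (j + 1)) :
    1 ≤ p j ∧ p j ≤ 2 := by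
  rcases Nat.eq_zero_or_pos j with rfl | hj
  · rw [hF.h0]
    apply del_vertex
    rw [← hV.1, List.head?_eq_getElem?]
    exact h.ne_one le_rfl (by omega)
  · rcases h.2.2.1 with h0 | h0
    · omega
    · have := del_one hF h0
      rwa [show j - 1 + 1 = j by omega] at this

/-- the point after a run -/
theorem del_stop (hV : VG τ η w) (hF : Fit τ η w p) {t : ℕ} (h : InRun w j t)
    (h' : ¬ InRun w j (t + 1)) : 1 ≤ p (t + 1) ∧ p (t + 1) ≤ 2 := by
  have h1 := h.1
  rcases h.le.eq_or_lt with e | hl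
  · rw [e, hF.h1]
    apply del_vertex
    rw [← hV.2.1, List.getLast?_eq_getElem?]
    exact h.ne_one (by omega) (by omega)
  · exact del_one hF (by_contra fun hn => h' (h.succ hl hn))

theorem del_mono (hV : VG τ η w) (hF : Fit τ η w p) (h3 : InRun w j (j + 3)) :
    ∃ k, j ≤ k ∧ InRun w j (k + 2) ∧
      ((0 < p (k + 1) ∧ p (k + 1) < 1 ∧ 2 < p (k + 2) ∧ p (k + 2) < 3 ∧
        p (k + 1) < p (k + 3) ∧ p (k + 3) < p k ∧ p k < p (k + 2)) ∨
      (0 < p (k + 2) ∧ p (k + 2) < 1 ∧ 2 < p (k + 1) ∧ p (k + 1) < 3 ∧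
        p (k + 2) < p k ∧ p k < p (k + 3) ∧ p (k + 3) < p (k + 1))) := by
  classical
  have hc := hV.2.2
  have two : ∀ t, j ≤ t → InRun w j (t + 2) →
      (0 < p (t + 1) ∧ p (t + 1) < 1 ∧ 2 < p (t + 2) ∧ p (t + 2) < 3) ∨
      (0 < p (t + 2) ∧ p (t + 2) < 1 ∧ 2 < p (t + 1) ∧ p (t + 1) < 3) := by
    intro t ht h
    have hne := del_chain hc (t := t) (by have := h.le; omega)
    rcases del_pos hF (h.mono (i := t + 1) (by omega) (by omega)) with a | a <;>
      rcases del_pos hF (t := t + 1) h with b | b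
    · exact absurd (a.1.trans b.1.symm) hne
    · exact Or.inl ⟨a.2.1, a.2.2, b.2.1, b.2.2⟩
    · exact Or.inr ⟨b.2.1, b.2.2, a.2.1, a.2.2⟩
    · exact absurd (a.1.trans b.1.symm) hne
  have hex : ∃ k, j ≤ k ∧ InRun w j (k + 2) ∧ btw (p (k + 1)) (p (k + 2)) (p (k + 3)) := by
    have hb : ∃ n, ¬ InRun w j (j + 3 + n) :=
      ⟨w.length, fun h => by have := h.le; omega⟩
    have h1 := Nat.find_spec hb
    have h0 : Nat.find hb ≠ 0 := fun e => h1 (by rw [e]; exact h3)
    obtain ⟨n, hn⟩ := Nat.exists_eq_succ_of_ne_zero h0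
    have h2 := not_not.1 (Nat.find_min hb (m := n) (by omega))
    rw [hn] at h1
    have h4 := del_stop hV hF h2 h1
    have h5 : InRun w j (j + 1 + n + 2) := by rwa [show j + 1 + n + 2 = j + 3 + n by omega]
    refine ⟨j + 1 + n, by omega, h5, ?_⟩
    rw [show j + 3 + n + 1 = j + 1 + n + 3 by omega] at h4
    rw [btw_iff]
    rcases two _ (by omega) h5 with a | a
    · left; constructor <;> linarith [a.2.1, a.2.2.1]
    · right; constructor <;> linarith [a.2.1, a.2.2.1]
  obtain ⟨hjk, hk, hQ⟩ := Nat.find_spec hex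
  have hmin := fun m => Nat.find_min hex (m := m)
  generalize Nat.find hex = k at hjk hk hQ hmin
  refine ⟨k, hjk, hk, ?_⟩
  rw [btw_iff] at hQ
  have hBC := two k hjk hk
  rcases hjk.eq_or_lt with rfl | hlt
  · have hA := del_start hV hF (hk.mono (by omega) (by omega))
    have hCD := two (j + 1) (by omega) h3
    simp only [add_assoc, Nat.reduceAdd] at hCD
    rcases hBC with a | a <;> rcases hCD with b | b <;> rcases hQ with q | q <;>
      first
        | (exfalso; linarith [a.1, a.2.1, a.2.2.1, b.1, b.2.1, b.2.2.1, q.1, q.2])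
        | exact Or.inl ⟨a.1, a.2.1, a.2.2.1, a.2.2.2, q.1, by linarith [b.2.1], by linarith [a.2.2.1]⟩
        | exact Or.inr ⟨a.1, a.2.1, a.2.2.1, a.2.2.2, by linarith [a.2.1], by linarith [b.2.2.1], q.2⟩
  · obtain ⟨s, rfl⟩ : ∃ s, k = s + 1 := ⟨k - 1, by omega⟩
    have hs : InRun w j (s + 2) := hk.mono (by omega) (by omega)
    have hAB := two s (by omega) hs
    have hn : ¬ btw (p (s + 1)) (p (s + 2)) (p (s + 3)) := fun h =>
      hmin s (by omega) ⟨by omega, hs, h⟩
    have hne : p (s + 1) ≠ p (s + 3) :=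
      hF.ne (by have := hk.le; omega) (by have := hk.le; omega) (by omega)
    rw [btw_iff, not_or, not_and, not_and, not_lt, not_lt] at hn
    have hD : p (s + 4) ≤ 2 ∨ ¬ p (s + 2) < 1 := by
      by_cases h : InRun w j (s + 1 + 2 + 1)
      · have hCD := two (s + 2) (by omega) h
        simp only [add_assoc, Nat.reduceAdd] at hCD hBC
        rcases hBC with a | a <;> rcases hCD with b | b
        · exfalso; linarith [b.2.1, a.2.2.1]
        · left; linarith [b.2.1]
        · right; intro h; linarith [a.2.2.1]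
        · right; intro h; linarith [a.2.2.1]
      · exact Or.inl (del_stop hV hF hk h).2
    have hD' : 1 ≤ p (s + 4) ∨ ¬ 2 < p (s + 2) := by
      by_cases h : InRun w j (s + 1 + 2 + 1)
      · have hCD := two (s + 2) (by omega) h
        simp only [add_assoc, Nat.reduceAdd] at hCD hBC
        rcases hBC with a | a <;> rcases hCD with b | b
        · right; intro h; linarith [a.2.1]
        · right; intro h; linarith [a.2.1]
        · left; linarith [b.2.2.1]
        · exfalso; linarith [a.2.1, b.2.2.1]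
      · exact Or.inl (del_stop hV hF hk h).1
    simp only [add_assoc, Nat.reduceAdd] at hBC hQ ⊢
    rcases hBC with a | a <;> rcases hAB with b | b
    · exfalso; linarith [a.2.1, b.2.2.1]
    · have h1 := hn.2 (by linarith [a.2.1, a.2.2.1])
      have h2 : p (s + 1) < p (s + 3) := lt_of_le_of_ne h1 hne
      have h3 : p (s + 4) ≤ 2 := hD.resolve_right (not_not.2 a.2.1)
      rcases hQ with q | q
      · exact Or.inl ⟨a.1, a.2.1, a.2.2.1, a.2.2.2, q.1, by linarith [b.2.2.1], h2⟩
      · exfalso; linarith [q.1, q.2, a.2.1, a.2.2.1]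
    · have h1 : p (s + 3) ≤ p (s + 1) := by
        by_contra h
        have := hn.1 (not_le.1 h)
        linarith [a.2.1, a.2.2.1]
      have h2 : p (s + 3) < p (s + 1) := lt_of_le_of_ne h1 hne.symm
      have h3 : 1 ≤ p (s + 4) := hD'.resolve_right (not_not.2 a.2.2.1)
      rcases hQ with q | q
      · exfalso; linarith [q.1, q.2, a.2.1, a.2.2.1]
      · exact Or.inr ⟨a.1, a.2.1, a.2.2.1, a.2.2.2, h2, by linarith [b.2.1], q.2⟩
    · exfalso; linarith [a.2.2.1, b.2.1]

theorem del_fit (hV : VG τ η w) (hF : Fit τ η w p) (h3 : InRun w j (j + 3)) {k : ℕ} (hjk : j ≤ k)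
    (hk : InRun w j (k + 2)) : Fit τ η (del 1 j w) (drop2 k p) := by
  have hl := del_length h3.le
  have hk' := hk.le
  refine ⟨?_, ?_, fun t x hx => ?_, fun a ha b hb e => ?_⟩
  · simp only [drop2, Nat.zero_le, if_true, hF.h0]
  · simp only [drop2]
    rw [if_neg (by omega), show (del 1 j w).length + 1 + 2 = w.length + 1 by omega, hF.h1]
  · rw [del_get h3.le] at hx
    simp only [drop2]
    split_ifs with h1
    · apply hF.mem
      split_ifs at hx with h2
      · exact hx
      · rw [del_alt hV.2.2 (by omega) (hk.ne_one (by omega) (by omega))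
          (hk.ne_one (by omega) (by omega)) (hk.ne_one (by omega) (by omega))]
        exact hx
    · rw [show t + 1 + 2 = t + 2 + 1 by omega]
      apply hF.mem
      split_ifs at hx with h2
      · have := h3.le
        rw [← del_alt hV.2.2 (by omega) (h3.ne_one (by omega) (by omega))
          (h3.ne_one (by omega) (by omega)) (h3.ne_one (by omega) (by omega))]
        exact hx
      · exact hx
  · have ha' : a ≤ (del 1 j w).length + 1 := ha
    have hb' : b ≤ (del 1 j w).length + 1 := hb
    simp only [drop2] at e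
    by_contra hne
    split_ifs at e <;> exact hF.ne (by omega) (by omega) (by omega) e

end run

theorem del_kap (B C : ℚ) (m : ℕ) (p : ℕ → ℚ) :
    kap (min B C) (max B C) m p = ∑ t ∈ range (m + 1), c1 B C (p t) (p (t + 1)) := by
  unfold kap
  rw [card_filter]
  refine sum_congr rfl fun t _ => ?_
  have e : ∀ x, ins (min B C) (max B C) x ↔ ¬ btw B C x := fun x => by
    unfold ins btw
    rw [not_and_or, not_lt, not_lt]
  unfold c1
  rw [ite_not]
  exact if_congr (by rw [e, e, not_iff_not]) rfl rfl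

theorem del_count (hS : StmtSplit2) {m k : ℕ} {p : ℕ → ℚ} (hi : Set.InjOn p (Set.Iic (m + 3)))
    (hk : k ≤ m) (hx : c1 (p k) (p (k + 1)) (p (k + 2)) (p (k + 3)) = 1) :
    X m (drop2 k p) + kap (min (p (k + 1)) (p (k + 2))) (max (p (k + 1)) (p (k + 2))) (m + 2) p ≤
      X (m + 2) p + 1 := by
  have h := hS m k p hi hk
  have ne : ∀ a b, a ≤ m + 3 → b ≤ m + 3 → a ≠ b → p a ≠ p b := fun a b ha hb hab e =>
    hab (hi ha hb e)
  obtain ⟨n, rfl⟩ := Nat.exists_eq_add_of_le hk
  rw [del_kap, show k + n + 2 + 1 = k + n + 3 by omega,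
    del_sum (fun t => c1 (p (k + 1)) (p (k + 2)) (p t) (p (t + 1))) k n]
  have h1 := c1_le_one (p (k + 1)) (p (k + 2)) (p k) (p (k + 1))
  have h2 := c1_le_one (p (k + 1)) (p (k + 2)) (p (k + 2)) (p (k + 2 + 1))
  have h3 : c1 (p (k + 1)) (p (k + 2)) (p (k + 1)) (p (k + 1 + 1)) = 0 := by
    unfold c1
    rw [if_pos]
    rw [btw_iff, btw_iff]
    simp
  have h4 : ∑ t ∈ (range (k + n + 1)).erase k,
      (if t % 2 = k % 2 then c1 (p k) (p (k + 3)) (drop2 k p t) (drop2 k p (t + 1)) else 0) +
      ∑ t ∈ (range (k + n + 1)).erase k, c1 (p (k + 1)) (p (k + 2))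
        (p (if t < k then t else t + 2)) (p ((if t < k then t else t + 2) + 1)) ≤
      ∑ t ∈ (range (k + n + 1)).erase k,
        if t % 2 = k % 2 then
          c1 (p k) (p (k + 1)) (drop2 k p t) (drop2 k p (t + 1)) +
            c1 (p (k + 2)) (p (k + 3)) (drop2 k p t) (drop2 k p (t + 1))
        else c1 (p (k + 1)) (p (k + 2)) (drop2 k p t) (drop2 k p (t + 1)) := by
    rw [← sum_add_distrib]
    refine sum_le_sum fun t ht => ?_
    rw [mem_erase, mem_range] at ht
    obtain ⟨s, hs⟩ : ∃ s, s = if t < k then t else t + 2 := ⟨_, rfl⟩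
    have e1 : drop2 k p t = p s := by
      simp only [drop2, hs]
      split_ifs <;> first | rfl | omega
    have e2 : drop2 k p (t + 1) = p (s + 1) := by
      simp only [drop2, hs]
      split_ifs <;> first | rfl | omega
    rw [← hs, e1, e2]
    split_ifs with hp
    · have hs' : s + 1 ≤ k + n + 3 ∧ (s + 1 < k ∨ k + 3 < s) := by
        rw [hs]; split_ifs <;> omega
      have sy : ∀ a b, k ≤ a → a ≤ k + 3 → k ≤ b → b ≤ k + 3 →
          c1 (p a) (p b) (p s) (p (s + 1)) = c1 (p s) (p (s + 1)) (p a) (p b) :=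
        fun a b a1 a2 b1 b2 => c1_symm (ne _ _ (by omega) (by omega) (by omega))
          (ne _ _ (by omega) (by omega) (by omega)) (ne _ _ (by omega) (by omega) (by omega))
          (ne _ _ (by omega) (by omega) (by omega))
      rw [sy k (k + 3) (by omega) (by omega) (by omega) (by omega),
        sy (k + 1) (k + 2) (by omega) (by omega) (by omega) (by omega),
        sy k (k + 1) (by omega) (by omega) (by omega) (by omega),
        sy (k + 2) (k + 3) (by omega) (by omega) (by omega) (by omega)]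
      exact c1_uncross _ _ hx
    · omega
  rw [hx] at h
  omega

theorem del_of : StmtSplit2 → StmtDel := by
  intro hS τ η w p j hV hF hSt
  have h3 : InRun w j (j + 3) := ⟨by omega, by rwa [show j + 3 - j = 3 by omega]⟩
  obtain ⟨k, hjk, hk, hcase⟩ := del_mono hV hF h3
  have hl := del_length h3.le
  have hk' := hk.le
  have hk1 : InRun w j (k + 1) := hk.mono (by omega) (by omega)
  have hfit := del_fit hV hF h3 hjk hk
  have hx : c1 (p k) (p (k + 1)) (p (k + 2)) (p (k + 3)) = 1 := by
    unfold c1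
    rw [if_neg]
    rw [btw_iff, btw_iff]
    rcases hcase with ⟨-, -, -, -, a, b, c⟩ | ⟨-, -, -, -, a, b, c⟩
    · intro h
      rcases h.2 (Or.inr ⟨a, b⟩) with q | q <;> linarith [q.1, q.2]
    · intro h
      rcases h.2 (Or.inl ⟨b, c⟩) with q | q <;> linarith [q.1, q.2]
  have hcount := del_count hS (m := (del 1 j w).length) (k := k) (p := p)
    (by rw [show (del 1 j w).length + 3 = w.length + 1 by omega]; exact hF.inj) (by omega) hx
  rw [hl] at hcount
  rcases hcase with ⟨a1, a2, a3, a4, a, b, c⟩ | ⟨a1, a2, a3, a4, a, b, c⟩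
  · have hle : p (k + 1) ≤ p (k + 2) := by linarith
    rw [min_eq_left hle, max_eq_right hle] at hcount
    refine ⟨_, _, _, k + 2, k + 1, ⟨a1.le, a2, a3, a4.le⟩, hfit, hcount, hk1, rfl, hk,
      Or.inr le_rfl, ?_⟩
    rintro (h | h) <;> linarith
  · have hle : p (k + 2) ≤ p (k + 1) := by linarith
    rw [min_eq_right hle, max_eq_left hle] at hcount
    refine ⟨_, _, _, k + 2, k + 2, ⟨a1.le, a2, a3, a4.le⟩, hfit, hcount, hk, rfl, hk,
      Or.inl le_rfl, ?_⟩
    rintro (h | h) <;> linarith

end Pool.Agent.MP_d5eec5_gt.H77
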